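import Pool.Agent.H158_PC.Cho

/-!
# Non-uniform countable choice for coanalytic sets does not imply it for `Σ¹₂` sets

The definitions used in the statement are in `Pool.Agent.H158_PC.Defs` and `Pool.Agent.W868.Defs`.
-/

set_option autoImplicit false

namespace Pool.Agent.Results.MP_bf67b0_lc.CoanalyticChoice

open Pool.Agent.W868 (IsZF)
open Pool.Agent.H158_PC (ACw Pi11 Sigma12)

/-- There is a countable transitive model of ZF in which countable choice holds for boldface `Π¹₁`
sets of reals and fails for boldface `Σ¹₂` sets of reals. -/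
theorem result : ∃ M : Set ZFSet.{0}, M.Countable ∧ IsZF M ∧
    ACw M (Pi11 M) ∧ ¬ ACw M (Sigma12 M) :=
  Pool.Agent.H158_PC.main_sigma

end Pool.Agent.Results.MP_bf67b0_lc.CoanalyticChoice
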